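import Pool.Agent.H78.Lpa4

open Pool.Agent.H78.Lpa

theorem Pool.Agent.Results.MP_40e4cd_al.Counter.result :
    ¬ ∀ (K : Type) [Field K] (V E V' E' : Type) [Fintype V] [Fintype E] [DecidableEq V]
      [DecidableEq E] [Fintype V'] [Fintype E'] [DecidableEq V'] [DecidableEq E']
      (s r : E → V) (s' r' : E' → V'),
      Nonempty (LPA K (sq s) (sq r) ≃ₐ[K] LPA K (sq s') (sq r')) →
      Nonempty (LPA K s r ≃ₐ[K] LPA K s' r') :=
  main
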